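import Pool.Agent.Q198.N2Defs

set_option autoImplicit false

/-!
# MP_6cf06e_an, Q2: the second polynomial numerical index of `L_1[0,1]` is at most 3/4
-/

namespace Pool.Agent.Results.MP_6cf06e_an.IntegrableFunctions

open Pool.Agent.Q198.N2 MeasureTheory

section cut

variable {𝕜 : Type*} [RCLike 𝕜] {α : Type*} [MeasurableSpace α] {μ : Measure α}

/-- Restriction of an `L_1` function to a measurable set. -/
noncomputable def cutFun (s : Set α) (hs : MeasurableSet s) (f : Lp 𝕜 1 μ) : Lp 𝕜 1 μ :=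
  ((Lp.memLp f).indicator hs).toLp (s.indicator f)

lemma cutFun_coe (s : Set α) (hs : MeasurableSet s) (f : Lp 𝕜 1 μ) :
    (cutFun s hs f : α → 𝕜) =ᵐ[μ] s.indicator (f : α → 𝕜) := by
  unfold cutFun
  exact MemLp.coeFn_toLp _

lemma cutFun_add (s : Set α) (hs : MeasurableSet s) (f g : Lp 𝕜 1 μ) :
    cutFun s hs (f + g) = cutFun s hs f + cutFun s hs g := by
  apply Lp.ext
  filter_upwards [cutFun_coe s hs (f + g), cutFun_coe s hs f, cutFun_coe s hs g,
    Lp.coeFn_add f g, Lp.coeFn_add (cutFun s hs f) (cutFun s hs g)] with a h1 h2 h3 h4 h5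
  rw [h1, h5, Pi.add_apply, h2, h3]
  by_cases ha : a ∈ s
  · simp only [Set.indicator_of_mem ha]; rw [h4]; rfl
  · simp only [Set.indicator_of_notMem ha]; simp

lemma cutFun_smul (s : Set α) (hs : MeasurableSet s) (c : 𝕜) (f : Lp 𝕜 1 μ) :
    cutFun s hs (c • f) = c • cutFun s hs f := by
  apply Lp.ext
  filter_upwards [cutFun_coe s hs (c • f), cutFun_coe s hs f,
    Lp.coeFn_smul c f, Lp.coeFn_smul c (cutFun s hs f)] with a h1 h2 h4 h5
  rw [h1, h5, Pi.smul_apply, h2]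
  by_cases ha : a ∈ s
  · simp only [Set.indicator_of_mem ha]; rw [h4]; rfl
  · simp only [Set.indicator_of_notMem ha]; simp

lemma norm_cutFun (s : Set α) (hs : MeasurableSet s) (f : Lp 𝕜 1 μ) :
    ‖cutFun s hs f‖ = ∫ a in s, ‖f a‖ ∂μ := by
  rw [L1.norm_eq_integral_norm, ← integral_indicator hs]
  apply integral_congr_ae
  filter_upwards [cutFun_coe s hs f] with a ha
  rw [ha]
  by_cases h : a ∈ s
  · simp only [Set.indicator_of_mem h]
  · simp only [Set.indicator_of_notMem h, norm_zero]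

lemma norm_cutFun_le (s : Set α) (hs : MeasurableSet s) (f : Lp 𝕜 1 μ) :
    ‖cutFun s hs f‖ ≤ ‖f‖ := by
  rw [norm_cutFun, L1.norm_eq_integral_norm]
  exact setIntegral_le_integral (L1.integrable_coeFn f).norm
    (Filter.Eventually.of_forall fun a => norm_nonneg _)

/-- Restriction of an `L_1` function to a measurable set, as a bounded operator. -/
noncomputable def cut (s : Set α) (hs : MeasurableSet s) : Lp 𝕜 1 μ →L[𝕜] Lp 𝕜 1 μ :=
  LinearMap.mkContinuous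
    { toFun := cutFun s hs
      map_add' := cutFun_add s hs
      map_smul' := cutFun_smul s hs } 1 (fun f => by
    rw [one_mul]; exact norm_cutFun_le s hs f)

lemma cut_apply (s : Set α) (hs : MeasurableSet s) (f : Lp 𝕜 1 μ) : cut s hs f = cutFun s hs f := rfl

/-- The integral over `s` as a functional. -/
noncomputable def intOn (s : Set α) (hs : MeasurableSet s) : Lp 𝕜 1 μ →L[𝕜] 𝕜 :=
  (L1.integralCLM' (α := α) (E := 𝕜) (μ := μ) 𝕜).comp (cut s hs)

lemma intOn_eq (s : Set α) (hs : MeasurableSet s) (f : Lp 𝕜 1 μ) :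
    intOn s hs f = ∫ a in s, f a ∂μ := by
  have h1 : intOn s hs f = L1.integral (cutFun s hs f) := by
    rw [L1.integral_eq' 𝕜]; rfl
  rw [h1, L1.integral_eq_integral, ← integral_indicator hs]
  apply integral_congr_ae
  filter_upwards [cutFun_coe s hs f] with a ha
  rw [ha]

lemma norm_intOn_le (s : Set α) (hs : MeasurableSet s) (f : Lp 𝕜 1 μ) :
    ‖intOn s hs f‖ ≤ ‖cut s hs f‖ := by
  rw [intOn_eq, cut_apply, norm_cutFun]
  exact norm_integral_le_integral_norm _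

end cut

section main

variable {𝕜 : Type*} [RCLike 𝕜] {α : Type*} [MeasurableSpace α] {μ : Measure α}

/-- Data of a measurable partition in three sets. -/
structure Part (μ : Measure α) where
  /-- the sets -/
  s : Fin 3 → Set α
  /-- measurability -/
  hs : ∀ i, MeasurableSet (s i)
  /-- exactly one of the sets contains a given point -/
  cover : ∀ a, ∃! i, a ∈ s i

lemma sum_cut (p : Part μ) (f : Lp 𝕜 1 μ) : ∑ i, cut (p.s i) (p.hs i) f = f := by
  apply Lp.ext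
  have h : ∀ᵐ a ∂μ, ∀ i, (cut (p.s i) (p.hs i) f : α → 𝕜) a = (p.s i).indicator f a := by
    rw [ae_all_iff]
    exact fun i => cutFun_coe (p.s i) (p.hs i) f
  have h2 : ((∑ i, cut (p.s i) (p.hs i) f : Lp 𝕜 1 μ) : α → 𝕜) =ᵐ[μ]
      fun a => ∑ i, (cut (p.s i) (p.hs i) f : α → 𝕜) a := by
    rw [Fin.sum_univ_three]
    filter_upwards [Lp.coeFn_add (cut (p.s 0) (p.hs 0) f + cut (p.s 1) (p.hs 1) f)
      (cut (p.s 2) (p.hs 2) f), Lp.coeFn_add (cut (p.s 0) (p.hs 0) f) (cut (p.s 1) (p.hs 1) f)]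
      with a h3 h4
    rw [h3, Pi.add_apply, h4, Pi.add_apply, Fin.sum_univ_three]
  filter_upwards [h, h2] with a ha ha2
  rw [ha2]
  simp only [ha]
  obtain ⟨i, hi, hu⟩ := p.cover a
  rw [Finset.sum_eq_single i]
  · exact Set.indicator_of_mem hi _
  · intro j _ hj
    exact Set.indicator_of_notMem (fun h => hj (hu j h)) _
  · intro h; exact absurd (Finset.mem_univ i) h

lemma sum_norm_cut (p : Part μ) (f : Lp 𝕜 1 μ) : ∑ i, ‖cut (p.s i) (p.hs i) f‖ = ‖f‖ := by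
  have hint := (L1.integrable_coeFn f).norm
  simp only [cut_apply, norm_cutFun]
  rw [L1.norm_eq_integral_norm]
  have h1 : ∀ i, ∫ a in p.s i, ‖f a‖ ∂μ = ∫ a, (p.s i).indicator (fun a => ‖f a‖) a ∂μ :=
    fun i => (integral_indicator (p.hs i)).symm
  simp only [h1]
  rw [← integral_finsetSum _ fun i _ => hint.indicator (p.hs i)]
  apply integral_congr_ae
  refine Filter.Eventually.of_forall fun a => ?_
  obtain ⟨i, hi, hu⟩ := p.cover a
  simp only
  rw [Finset.sum_eq_single i]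
  · exact Set.indicator_of_mem hi _
  · intro j _ hj
    exact Set.indicator_of_notMem (fun h => hj (hu j h)) _
  · intro h; exact absurd (Finset.mem_univ i) h

/-- The real quantity governing the numerical radius. -/
lemma arith (m : Fin 3 → ℝ) (hm : ∀ i, 0 ≤ m i) (hs : m 0 + m 1 + m 2 = 1) :
    m 0 * |m 1 - m 2| + m 1 * |m 0 - m 2| + m 2 * (m 0 + m 1) ≤ 1 / 2 := by
  have h0 := hm 0
  have h1 := hm 1
  have h2 := hm 2
  set a := m 0
  set b := m 1
  set c := m 2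
  have hc : c = 1 - a - b := by linarith
  rcases le_total b c with h3 | h3 <;> rcases le_total a c with h4 | h4
  · rw [abs_of_nonpos (by linarith), abs_of_nonpos (by linarith)]
    nlinarith [sq_nonneg (c - 1 / 2), mul_nonneg h0 h1]
  · rw [abs_of_nonpos (by linarith), abs_of_nonneg (by linarith)]
    nlinarith [sq_nonneg (a - c), mul_nonneg h0 h1, sq_nonneg (a + c - 1), mul_nonneg h1 h2]
  · rw [abs_of_nonneg (by linarith), abs_of_nonpos (by linarith)]
    nlinarith [sq_nonneg (b - c), mul_nonneg h0 h1, sq_nonneg (b + c - 1), mul_nonneg h0 h2]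
  · rw [abs_of_nonneg (by linarith), abs_of_nonneg (by linarith)]
    nlinarith [sq_nonneg (a - b), mul_nonneg h0 h2, mul_nonneg h1 h2]

/-- The polynomial. -/
noncomputable def Pol (𝕜 : Type*) [RCLike 𝕜] (p : Part μ) (x : Lp 𝕜 1 μ) : Lp 𝕜 1 μ :=
  (intOn (p.s 1) (p.hs 1) x + intOn (p.s 2) (p.hs 2) x) • cut (p.s 0) (p.hs 0) x
  + (intOn (p.s 0) (p.hs 0) x + intOn (p.s 2) (p.hs 2) x) • cut (p.s 1) (p.hs 1) x
  - (intOn (p.s 0) (p.hs 0) x + intOn (p.s 1) (p.hs 1) x) • cut (p.s 2) (p.hs 2) x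

lemma Pol_quad (p : Part μ) : IsQuad 𝕜 (Lp 𝕜 1 μ) (Pol 𝕜 p) := by
  let t : Fin 3 → (Lp 𝕜 1 μ →L[𝕜] 𝕜) := fun i => intOn (p.s i) (p.hs i)
  let c : Fin 3 → (Lp 𝕜 1 μ →L[𝕜] Lp 𝕜 1 μ) := fun i => cut (p.s i) (p.hs i)
  refine ⟨ContinuousLinearMap.smulRight (t 1 + t 2) (c 0)
    + ContinuousLinearMap.smulRight (t 0 + t 2) (c 1)
    - ContinuousLinearMap.smulRight (t 0 + t 1) (c 2), fun x => ?_⟩
  rfl

/-- Support functionals split along the partition. -/
lemma split (p : Part μ) (x : Lp 𝕜 1 μ) (f : Lp 𝕜 1 μ →L[𝕜] 𝕜) (hx : ‖x‖ = 1) (hf : ‖f‖ = 1)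
    (hfx : f x = 1) (i : Fin 3) : f (cut (p.s i) (p.hs i) x) = (‖cut (p.s i) (p.hs i) x‖ : 𝕜) := by
  have hle : ∀ i, ‖f (cut (p.s i) (p.hs i) x)‖ ≤ ‖cut (p.s i) (p.hs i) x‖ := by
    intro i
    have := f.le_opNorm (cut (p.s i) (p.hs i) x)
    rwa [hf, one_mul] at this
  have hre : ∀ i, RCLike.re (f (cut (p.s i) (p.hs i) x)) ≤ ‖cut (p.s i) (p.hs i) x‖ :=
    fun i => (RCLike.re_le_norm _).trans (hle i)
  have hsum : ∑ i, RCLike.re (f (cut (p.s i) (p.hs i) x)) = ∑ i, ‖cut (p.s i) (p.hs i) x‖ := by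
    rw [sum_norm_cut, hx, ← map_sum, ← map_sum, sum_cut, hfx, RCLike.one_re]
  have heq : RCLike.re (f (cut (p.s i) (p.hs i) x)) = ‖cut (p.s i) (p.hs i) x‖ :=
    (Finset.sum_eq_sum_iff_of_le fun i _ => hre i).1 hsum i (Finset.mem_univ i)
  have hnorm : ‖f (cut (p.s i) (p.hs i) x)‖ = RCLike.re (f (cut (p.s i) (p.hs i) x)) :=
    le_antisymm (by rw [heq]; exact hle i) (RCLike.re_le_norm _)
  have him : RCLike.im (f (cut (p.s i) (p.hs i) x)) = 0 := by
    have h1 := RCLike.norm_sq_eq_def (z := f (cut (p.s i) (p.hs i) x))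
    rw [hnorm] at h1
    nlinarith
  rw [← heq]
  apply RCLike.ext
  · rw [RCLike.ofReal_re]
  · rw [him, RCLike.ofReal_im]

lemma numRad_bound (p : Part μ) (x : Lp 𝕜 1 μ) (f : Lp 𝕜 1 μ →L[𝕜] 𝕜) (hx : ‖x‖ = 1)
    (hf : ‖f‖ = 1) (hfx : f x = 1) : ‖f (Pol 𝕜 p x)‖ ≤ 1 / 2 := by
  set m : Fin 3 → ℝ := fun i => ‖cut (p.s i) (p.hs i) x‖ with hm
  set t : Fin 3 → 𝕜 := fun i => intOn (p.s i) (p.hs i) x with ht
  have hm0 : ∀ i, 0 ≤ m i := fun i => norm_nonneg _
  have hms : m 0 + m 1 + m 2 = 1 := by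
    have := sum_norm_cut p x
    rwa [Fin.sum_univ_three, hx] at this
  have htm : ∀ i, ‖t i‖ ≤ m i := fun i => norm_intOn_le _ _ _
  have e : f (Pol 𝕜 p x) = t 0 * (((m 1 - m 2 : ℝ)) : 𝕜) + t 1 * (((m 0 - m 2 : ℝ)) : 𝕜)
      + t 2 * (((m 0 + m 1 : ℝ)) : 𝕜) := by
    simp only [Pol, map_add, map_sub, map_smul, smul_eq_mul]
    rw [split p x f hx hf hfx, split p x f hx hf hfx, split p x f hx hf hfx]
    simp only [hm, ht, RCLike.ofReal_sub, RCLike.ofReal_add]
    ring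
  rw [e]
  refine le_trans ?_ (arith m hm0 hms)
  refine (norm_add_le _ _).trans (add_le_add ((norm_add_le _ _).trans (add_le_add ?_ ?_)) ?_)
  · rw [norm_mul, RCLike.norm_ofReal]
    exact mul_le_mul_of_nonneg_right (htm 0) (abs_nonneg _)
  · rw [norm_mul, RCLike.norm_ofReal]
    exact mul_le_mul_of_nonneg_right (htm 1) (abs_nonneg _)
  · rw [norm_mul, RCLike.norm_ofReal, abs_of_nonneg (add_nonneg (hm0 0) (hm0 1))]
    exact mul_le_mul_of_nonneg_right (htm 2) (add_nonneg (hm0 0) (hm0 1))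

end main

section interval

/-- Lebesgue measure on `[0,1]`. -/
noncomputable def leb : Measure ℝ := volume.restrict (Set.Icc 0 1)

instance : IsFiniteMeasure leb := by unfold leb; infer_instance

/-- The partition of `[0,1]` in three intervals of equal length. -/
noncomputable def thirds : Part leb where
  s := ![Set.Iio (1 / 3), Set.Ico (1 / 3) (2 / 3), Set.Ici (2 / 3)]
  hs := by
    intro i
    fin_cases i
    · exact measurableSet_Iio
    · exact measurableSet_Ico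
    · exact measurableSet_Ici
  cover := by
    intro a
    rcases lt_or_ge a (1 / 3) with h | h
    · refine ⟨0, h, ?_⟩
      intro j hj
      fin_cases j
      · rfl
      · exact absurd hj.1 (by simpa using h)
      · exact absurd (show (2 / 3 : ℝ) ≤ a from hj) (by push Not; linarith)
    · rcases lt_or_ge a (2 / 3) with h2 | h2
      · refine ⟨1, ⟨h, h2⟩, ?_⟩
        intro j hj
        fin_cases j
        · exact absurd (show a < (1 / 3 : ℝ) from hj) (by push Not; linarith)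
        · rfl
        · exact absurd (show (2 / 3 : ℝ) ≤ a from hj) (by push Not; linarith)
      · refine ⟨2, h2, ?_⟩
        intro j hj
        fin_cases j
        · exact absurd (show a < (1 / 3 : ℝ) from hj) (by push Not; linarith)
        · exact absurd hj.2 (by simpa using h2)
        · rfl

lemma leb_thirds (i : Fin 3) : leb.real (thirds.s i) = 1 / 3 := by
  unfold leb
  rw [measureReal_restrict_apply (thirds.hs i)]
  fin_cases i
  · have : (Set.Iio (1 / 3) : Set ℝ) ∩ Set.Icc 0 1 = Set.Ico 0 (1 / 3) := by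
      ext a; simp only [Set.mem_inter_iff, Set.mem_Iio, Set.mem_Icc, Set.mem_Ico]
      constructor
      · rintro ⟨h1, h2, h3⟩; exact ⟨h2, h1⟩
      · rintro ⟨h1, h2⟩; exact ⟨h2, h1, by linarith⟩
    change volume.real ((Set.Iio (1 / 3) : Set ℝ) ∩ Set.Icc 0 1) = 1 / 3
    rw [this, Real.volume_real_Ico]; norm_num
  · have : (Set.Ico (1 / 3) (2 / 3) : Set ℝ) ∩ Set.Icc 0 1 = Set.Ico (1 / 3) (2 / 3) := by
      ext a; simp only [Set.mem_inter_iff, Set.mem_Icc, Set.mem_Ico]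
      constructor
      · rintro ⟨h1, h2⟩; exact h1
      · rintro ⟨h1, h2⟩; exact ⟨⟨h1, h2⟩, by linarith, by linarith⟩
    change volume.real ((Set.Ico (1 / 3) (2 / 3) : Set ℝ) ∩ Set.Icc 0 1) = 1 / 3
    rw [this, Real.volume_real_Ico]; norm_num
  · have : (Set.Ici (2 / 3) : Set ℝ) ∩ Set.Icc 0 1 = Set.Icc (2 / 3) 1 := by
      ext a; simp only [Set.mem_inter_iff, Set.mem_Ici, Set.mem_Icc]
      constructor
      · rintro ⟨h1, h2, h3⟩; exact ⟨h1, h3⟩
      · rintro ⟨h1, h2⟩; exact ⟨h1, by linarith, h2⟩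
    change volume.real ((Set.Ici (2 / 3) : Set ℝ) ∩ Set.Icc 0 1) = 1 / 3
    rw [this, Real.volume_real_Icc]; norm_num

variable {𝕜 : Type*} [RCLike 𝕜]

variable (𝕜) in
/-- The constant function one. -/
noncomputable def one01 : Lp 𝕜 1 leb := MemLp.toLp (fun _ => (1 : 𝕜)) (memLp_const 1)

lemma one01_coe : (one01 𝕜 : ℝ → 𝕜) =ᵐ[leb] fun _ => 1 := by
  unfold one01
  exact MemLp.coeFn_toLp _

lemma intOn_one01 (i : Fin 3) : intOn (thirds.s i) (thirds.hs i) (one01 𝕜) = ((1 / 3 : ℝ) : 𝕜) := by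
  rw [intOn_eq]
  have h1 : ∫ a in thirds.s i, (one01 𝕜 : ℝ → 𝕜) a ∂leb = ∫ a in thirds.s i, (1 : 𝕜) ∂leb :=
    integral_congr_ae (ae_restrict_of_ae one01_coe)
  rw [h1, setIntegral_const, leb_thirds, RCLike.real_smul_eq_coe_mul, mul_one]

lemma norm_one01 : ‖one01 𝕜‖ = 1 := by
  rw [L1.norm_eq_integral_norm]
  have h1 : ∫ a, ‖(one01 𝕜 : ℝ → 𝕜) a‖ ∂leb = ∫ a, (1 : ℝ) ∂leb := by
    apply integral_congr_ae
    filter_upwards [one01_coe (𝕜 := 𝕜)] with a ha
    rw [ha, norm_one]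
  rw [h1, integral_const, smul_eq_mul, mul_one]
  unfold leb
  rw [measureReal_restrict_apply MeasurableSet.univ, Set.univ_inter, Real.volume_real_Icc]
  norm_num

lemma norm_Pol_one01 : ‖Pol 𝕜 thirds (one01 𝕜)‖ = 2 / 3 := by
  rw [L1.norm_eq_integral_norm]
  have h1 : ∫ a, ‖(Pol 𝕜 thirds (one01 𝕜) : ℝ → 𝕜) a‖ ∂leb = ∫ a, (2 / 3 : ℝ) ∂leb := by
    apply integral_congr_ae
    set y : Fin 3 → Lp 𝕜 1 leb := fun i => cut (thirds.s i) (thirds.hs i) (one01 𝕜) with hy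
    have e : Pol 𝕜 thirds (one01 𝕜) = ((2 / 3 : ℝ) : 𝕜) • (y 0 + y 1 - y 2) := by
      simp only [Pol, intOn_one01]
      rw [← RCLike.ofReal_add]
      norm_num
      simp only [hy, smul_add, smul_sub]
    rw [e]
    filter_upwards [Lp.coeFn_smul ((2 / 3 : ℝ) : 𝕜) (y 0 + y 1 - y 2), Lp.coeFn_sub (y 0 + y 1) (y 2),
      Lp.coeFn_add (y 0) (y 1), cutFun_coe (thirds.s 0) (thirds.hs 0) (one01 𝕜),
      cutFun_coe (thirds.s 1) (thirds.hs 1) (one01 𝕜),
      cutFun_coe (thirds.s 2) (thirds.hs 2) (one01 𝕜), one01_coe (𝕜 := 𝕜)]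
      with a h1 h2 h3 h4 h5 h6 h7
    rw [h1, Pi.smul_apply, h2, Pi.sub_apply, h3, Pi.add_apply]
    have h4' : (y 0 : ℝ → 𝕜) a = (thirds.s 0).indicator (one01 𝕜 : ℝ → 𝕜) a := h4
    have h5' : (y 1 : ℝ → 𝕜) a = (thirds.s 1).indicator (one01 𝕜 : ℝ → 𝕜) a := h5
    have h6' : (y 2 : ℝ → 𝕜) a = (thirds.s 2).indicator (one01 𝕜 : ℝ → 𝕜) a := h6
    rw [h4', h5', h6']
    have hn : ∀ z : 𝕜, ‖z‖ = 1 → ‖((2 / 3 : ℝ) : 𝕜) • z‖ = 2 / 3 := by
      intro z hz
      rw [norm_smul, hz, RCLike.norm_ofReal, mul_one]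
      norm_num
    apply hn
    obtain ⟨i, hi, hu⟩ := thirds.cover a
    have hind : ∀ j, (thirds.s j).indicator (one01 𝕜 : ℝ → 𝕜) a = if j = i then 1 else 0 := by
      intro j
      by_cases hj : j = i
      · subst hj
        rw [Set.indicator_of_mem hi, h7, if_pos rfl]
      · rw [Set.indicator_of_notMem (fun h => hj (hu j h)), if_neg hj]
    rw [hind, hind, hind]
    fin_cases i <;> simp
  rw [h1, integral_const, smul_eq_mul]
  unfold leb
  rw [measureReal_restrict_apply MeasurableSet.univ, Set.univ_inter, Real.volume_real_Icc]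
  norm_num

end interval

/-- **Q2**: over `𝕜 = ℝ` and over `𝕜 = ℂ` the second polynomial numerical index of `L_1[0,1]` is at
most `3/4`; in particular it is not `1` in either case. -/
theorem result :
    (index2 ℝ (Lp ℝ 1 (volume.restrict (Set.Icc (0 : ℝ) 1))) ≤ 3 / 4 ∧
      index2 ℝ (Lp ℝ 1 (volume.restrict (Set.Icc (0 : ℝ) 1))) ≠ 1) ∧
    (index2 ℂ (Lp ℂ 1 (volume.restrict (Set.Icc (0 : ℝ) 1))) ≤ 3 / 4 ∧
      index2 ℂ (Lp ℂ 1 (volume.restrict (Set.Icc (0 : ℝ) 1))) ≠ 1) := by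
  have hmain : ∀ (𝕜 : Type) [RCLike 𝕜], index2 𝕜 (Lp 𝕜 1 leb) ≤ (1 / 2) / (2 / 3) := by
    intro 𝕜 _
    exact index2_le (Pol_quad thirds) (by norm_num) (by norm_num) (one01 𝕜) norm_one01
      norm_Pol_one01.symm.le (fun x f hx hf hfx => numRad_bound thirds x f hx hf hfx)
  have h1 := hmain ℝ
  have h2 := hmain ℂ
  have e : ((1 : ℝ) / 2) / (2 / 3) = 3 / 4 := by norm_num
  rw [e] at h1 h2
  exact ⟨⟨h1, fun h => by
    have h3 : (1 : ℝ) ≤ 3 / 4 := h ▸ h1
    norm_num at h3⟩, ⟨h2, fun h => by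
    have h3 : (1 : ℝ) ≤ 3 / 4 := h ▸ h2
    norm_num at h3⟩⟩

end Pool.Agent.Results.MP_6cf06e_an.IntegrableFunctions
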